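import Mathlib

open MeasureTheory Set Filter Topology
open scoped ENNReal

namespace Pool.Agent.H.MP_7f7d18_an

noncomputable def k (D x y : ℝ) : ℝ≥0∞ :=
  if x = y then ⊤ else ENNReal.ofReal (Real.log (D / |x - y|))

theorem k_symm (D x y : ℝ) : k D x y = k D y x := by
  unfold k
  rw [abs_sub_comm]
  simp only [eq_comm]

theorem k_meas (D : ℝ) : Measurable (fun p : ℝ × ℝ => k D p.1 p.2) := by
  unfold k
  exact Measurable.ite (measurableSet_eq_fun measurable_fst measurable_snd) measurable_const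
    (by fun_prop)

theorem k_meas' (D x : ℝ) : Measurable (k D x) :=
  (k_meas D).comp (measurable_const.prodMk measurable_id)

noncomputable def U (D : ℝ) (μ : Measure ℝ) (x : ℝ) : ℝ≥0∞ := ∫⁻ y, k D x y ∂μ

theorem U_meas (D : ℝ) (μ : Measure ℝ) [SFinite μ] : Measurable (U D μ) :=
  (k_meas D).lintegral_prod_right'

theorem U_swap (D : ℝ) (μ ν : Measure ℝ) [SFinite μ] [SFinite ν] :
    ∫⁻ x, U D μ x ∂ν = ∫⁻ x, U D ν x ∂μ := by
  unfold U
  rw [lintegral_lintegral_swap (f := fun x y => k D x y) (k_meas D).aemeasurable]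
  simp only [k_symm D]

theorem real_lim {E M a : ℝ}
    (h : ∀ t : ℝ, 0 < t → t < 1 → E ≤ (1 - t) ^ 2 * E + 2 * (1 - t) * (t * a) * M + (t * a) ^ 2 * E) :
    E ≤ a * M := by
  have h1 : Tendsto (fun t : ℝ => 2 * (1 - t) * a * M + t * a ^ 2 * E - (2 - t) * E) (𝓝[>] 0)
      (𝓝 (2 * (1 - 0) * a * M + 0 * a ^ 2 * E - (2 - 0) * E)) :=
    (Continuous.tendsto (by fun_prop) 0).mono_left nhdsWithin_le_nhds
  have h2 : 0 ≤ 2 * (1 - 0) * a * M + 0 * a ^ 2 * E - (2 - 0) * E := by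
    refine ge_of_tendsto h1 ?_
    filter_upwards [Ioo_mem_nhdsGT (show (0 : ℝ) < 1 by norm_num)] with t ht
    have := h t ht.1 ht.2
    refine le_of_mul_le_mul_left (a := t) ?_ ht.1
    nlinarith
  linarith

theorem variation {K : Set ℝ} {D : ℝ} {μ : Measure ℝ} [IsProbabilityMeasure μ] (hK : μ Kᶜ = 0)
    (hE : ∫⁻ x, U D μ x ∂μ < ⊤)
    (hmin : ∀ ν : Measure ℝ, IsProbabilityMeasure ν → ν Kᶜ = 0 →
      ∫⁻ x, U D μ x ∂μ ≤ ∫⁻ x, U D ν x ∂ν) {A : Set ℝ} (hA : MeasurableSet A) :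
    (∫⁻ x, U D μ x ∂μ) * μ A ≤ ∫⁻ x in A, U D μ x ∂μ := by
  by_cases h0 : μ A = 0
  · simp [h0]
  set E := ∫⁻ x, U D μ x ∂μ with hEdef
  set M := ∫⁻ x in A, U D μ x ∂μ with hM
  have hME : M ≤ E := setLIntegral_le_lintegral _ _
  have hMt : M ≠ ⊤ := (hME.trans_lt hE).ne
  have hat : μ A ≠ ⊤ := measure_ne_top _ _
  have hapos : 0 < (μ A).toReal := ENNReal.toReal_pos h0 hat
  have hN : ∫⁻ x in A, U D (μ.restrict A) x ∂μ ≤ E :=
    (setLIntegral_le_lintegral _ _).trans (lintegral_mono fun x => setLIntegral_le_lintegral _ _)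
  have key : E.toReal ≤ (μ A).toReal⁻¹ * M.toReal := by
    refine real_lim fun t ht0 ht1 => ?_
    have h1t : 0 ≤ 1 - t := by linarith
    have hta : 0 ≤ t * (μ A).toReal⁻¹ := by positivity
    set ν : Measure ℝ := ENNReal.ofReal (1 - t) • μ
      + ENNReal.ofReal (t * (μ A).toReal⁻¹) • μ.restrict A with hν
    have hp : IsProbabilityMeasure ν := ⟨by
      simp only [hν, Measure.add_apply, Measure.smul_apply, smul_eq_mul, measure_univ, mul_one,
        Measure.restrict_apply_univ]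
      rw [← ENNReal.ofReal_toReal hat, ENNReal.toReal_ofReal hapos.le, ← ENNReal.ofReal_mul hta,
        ← ENNReal.ofReal_add h1t (by positivity), mul_assoc, inv_mul_cancel₀ hapos.ne']
      simp⟩
    have hνK : ν Kᶜ = 0 := by
      have : μ.restrict A Kᶜ = 0 := le_antisymm ((Measure.restrict_le_self _).trans hK.le) bot_le
      simp [hν, hK, this]
    have h := hmin ν hp hνK
    have hU : U D ν = fun x => ENNReal.ofReal (1 - t) * U D μ x
        + ENNReal.ofReal (t * (μ A).toReal⁻¹) * U D (μ.restrict A) x := by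
      funext x
      simp only [U, hν, lintegral_add_measure, lintegral_smul_measure, smul_eq_mul]
    rw [hU] at h
    simp only [hν, lintegral_add_measure, lintegral_smul_measure, smul_eq_mul] at h
    rw [lintegral_add_left ((U_meas D μ).const_mul _), lintegral_add_left ((U_meas D μ).const_mul _),
      lintegral_const_mul _ (U_meas D μ), lintegral_const_mul _ (U_meas D μ),
      lintegral_const_mul _ (U_meas D _), lintegral_const_mul _ (U_meas D _),
      U_swap D (μ.restrict A) μ, ← hEdef, ← hM] at h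
    have h' : E ≤ ENNReal.ofReal ((1 - t) ^ 2 * E.toReal
        + 2 * (1 - t) * (t * (μ A).toReal⁻¹) * M.toReal + (t * (μ A).toReal⁻¹) ^ 2 * E.toReal) := by
      refine h.trans ?_
      refine (add_le_add le_rfl (mul_le_mul_right (add_le_add le_rfl
        (mul_le_mul_right hN _)) _)).trans (le_of_eq ?_)
      rw [← ENNReal.ofReal_toReal hE.ne, ← ENNReal.ofReal_toReal hMt]
      simp only [ENNReal.toReal_ofReal ENNReal.toReal_nonneg]
      rw [← ENNReal.ofReal_mul h1t, ← ENNReal.ofReal_mul hta, ← ENNReal.ofReal_mul h1t,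
        ← ENNReal.ofReal_mul hta, ← ENNReal.ofReal_add (by positivity) (by positivity),
        ← ENNReal.ofReal_add (by positivity) (by positivity), ← ENNReal.ofReal_mul h1t,
        ← ENNReal.ofReal_mul hta, ← ENNReal.ofReal_add (by positivity) (by positivity)]
      congr 1
      ring
    exact (ENNReal.toReal_mono ENNReal.ofReal_ne_top h').trans
      (le_of_eq (ENNReal.toReal_ofReal (by positivity)))
  rw [← ENNReal.toReal_le_toReal (ENNReal.mul_ne_top hE.ne hat) hMt, ENNReal.toReal_mul]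
  rw [inv_mul_eq_div, le_div_iff₀ hapos] at key
  exact key

theorem U_le_ae {K : Set ℝ} {D : ℝ} {μ : Measure ℝ} [IsProbabilityMeasure μ] (hK : μ Kᶜ = 0)
    (hE : ∫⁻ x, U D μ x ∂μ < ⊤)
    (hmin : ∀ ν : Measure ℝ, IsProbabilityMeasure ν → ν Kᶜ = 0 →
      ∫⁻ x, U D μ x ∂μ ≤ ∫⁻ x, U D ν x ∂ν) :
    ∀ᵐ x ∂μ, U D μ x ≤ ∫⁻ x, U D μ x ∂μ := by
  refine ae_le_of_forall_setLIntegral_le_of_sigmaFinite (g := fun _ => ∫⁻ x, U D μ x ∂μ)
    (U_meas D μ) fun s hs _ => ?_
  have h := variation hK hE hmin hs.compl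
  have h1 := lintegral_add_compl (μ := μ) (U D μ) hs
  set E := ∫⁻ x, U D μ x ∂μ
  rw [setLIntegral_const]
  have h2 : E * μ s + E * μ sᶜ = E := by
    rw [← mul_add, measure_add_measure_compl hs, measure_univ, mul_one]
  have h3 : ∫⁻ x in s, U D μ x ∂μ + E * μ sᶜ ≤ E * μ s + E * μ sᶜ := by
    rw [h2]
    exact (add_le_add le_rfl h).trans h1.le
  exact ENNReal.le_of_add_le_add_right (ENNReal.mul_ne_top hE.ne (measure_ne_top _ _)) h3

theorem no_atom {D : ℝ} {μ : Measure ℝ} [IsProbabilityMeasure μ]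
    (hE : ∫⁻ x, U D μ x ∂μ < ⊤) (z : ℝ) : μ {z} = 0 := by
  by_contra h
  have h1 : U D μ z = ⊤ := by
    refine top_le_iff.1 (le_trans ?_ (setLIntegral_le_lintegral {z} _))
    rw [lintegral_singleton]
    simp [k, ENNReal.top_mul h]
  have h2 : ∫⁻ x, U D μ x ∂μ = ⊤ := by
    refine top_le_iff.1 (le_trans ?_ (setLIntegral_le_lintegral {z} _))
    rw [lintegral_singleton, h1, ENNReal.top_mul h]
  exact hE.ne h2

theorem ae_ne {μ : Measure ℝ} {z : ℝ} (h : μ {z} = 0) : ∀ᵐ x ∂μ, x ≠ z := by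
  rw [ae_iff]
  simpa using h

theorem closed_U {D : ℝ} (hD : 0 < D) {μ : Measure ℝ} (hz : ∀ z, μ {z} = 0) (E : ℝ≥0∞) :
    IsClosed {z | U D μ z ≤ E} := by
  refine IsSeqClosed.isClosed fun u z hu hz' => ?_
  have h1 : U D μ z ≤ ∫⁻ y, liminf (fun n => k D (u n) y) atTop ∂μ := by
    refine lintegral_mono_ae ?_
    filter_upwards [ae_ne (hz z)] with y hy
    have hne : ∀ᶠ n in atTop, u n ≠ y := hz'.eventually_ne hy.symm
    have hab : |z - y| ≠ 0 := abs_ne_zero.2 (sub_ne_zero.2 hy.symm)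
    have ht : Tendsto (fun n => k D (u n) y) atTop (𝓝 (k D z y)) := by
      have : Tendsto (fun n => ENNReal.ofReal (Real.log (D / |u n - y|))) atTop
          (𝓝 (ENNReal.ofReal (Real.log (D / |z - y|)))) :=
        ENNReal.tendsto_ofReal (((tendsto_const_nhds.div (hz'.sub_const y).abs hab).log
          (div_ne_zero hD.ne' hab)))
      rw [k, if_neg hy.symm]
      refine this.congr' ?_
      filter_upwards [hne] with n hn
      rw [k, if_neg hn]
    exact ht.liminf_eq.ge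
  refine h1.trans ((lintegral_liminf_le fun n => k_meas' D (u n)).trans ?_)
  exact liminf_le_of_frequently_le' (Frequently.of_forall hu)

theorem log_on_S {K : Set ℝ} (hKc : IsCompact K) {D : ℝ} (hD : Metric.diam K < D)
    {μ : Measure ℝ} [IsProbabilityMeasure μ] (hK : μ Kᶜ = 0) (hz : ∀ z, μ {z} = 0) {E : ℝ≥0∞}
    (hE : E ≠ ⊤) {z : ℝ} (hzK : z ∈ K) (hU : U D μ z ≤ E) :
    Integrable (fun x => Real.log |x - z|) μ ∧
      Real.log D - E.toReal ≤ ∫ x, Real.log |x - z| ∂μ := by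
  have hD0 : 0 < D := Metric.diam_nonneg.trans_lt hD
  have hKae : ∀ᵐ x ∂μ, x ∈ K := hK
  have h1 : ∀ᵐ x ∂μ, 0 ≤ Real.log D - Real.log |x - z| ∧
      k D z x = ENNReal.ofReal (Real.log D - Real.log |x - z|) := by
    filter_upwards [hKae, ae_ne (hz z)] with x hx hxz
    have hab : 0 < |x - z| := abs_pos.2 (sub_ne_zero.2 hxz)
    have : |x - z| ≤ D := by
      rw [← Real.dist_eq]
      exact (Metric.dist_le_diam_of_mem hKc.isBounded hx hzK).trans hD.le
    refine ⟨sub_nonneg.2 (Real.log_le_log hab this), ?_⟩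
    rw [k, if_neg hxz.symm, abs_sub_comm, Real.log_div hD0.ne' hab.ne']
  have h2 : U D μ z = ∫⁻ x, ENNReal.ofReal (Real.log D - Real.log |x - z|) ∂μ :=
    lintegral_congr_ae (h1.mono fun x hx => hx.2)
  have hm : Measurable fun x => Real.log D - Real.log |x - z| := by fun_prop
  have h3 : Integrable (fun x => Real.log D - Real.log |x - z|) μ := by
    rw [← lintegral_ofReal_ne_top_iff_integrable hm.aestronglyMeasurable (h1.mono fun x hx => hx.1),
      ← h2]
    exact ne_top_of_le_ne_top hE hU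
  have h4 : Integrable (fun x => Real.log |x - z|) μ := by
    have := (integrable_const (μ := μ) (Real.log D)).sub h3
    refine this.congr (Eventually.of_forall fun x => ?_)
    simp
  refine ⟨h4, ?_⟩
  have h5 := ofReal_integral_eq_lintegral_ofReal h3 (h1.mono fun x hx => hx.1)
  rw [← h2, integral_sub (integrable_const _) h4] at h5
  simp only [integral_const, probReal_univ, smul_eq_mul, one_mul] at h5
  have h6 := (ENNReal.ofReal_le_iff_le_toReal hE).1 (h5.le.trans hU)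
  linarith

theorem gap {S : Set ℝ} (hS : IsCompact S) (hne : S.Nonempty) (z : ℝ) :
    ∃ a ∈ S, ∃ b ∈ S, ∃ θ : ℝ, 0 ≤ θ ∧ θ ≤ 1 ∧
      ∀ x ∈ S, θ * |x - a| + (1 - θ) * |x - b| ≤ |x - z| := by
  by_cases h1 : (S ∩ Iic z).Nonempty
  · obtain ⟨a, ⟨haS, haz⟩, ha⟩ := (hS.inter_right isClosed_Iic).exists_isGreatest h1
    by_cases h2 : (S ∩ Ici z).Nonempty
    · obtain ⟨b, ⟨hbS, hbz⟩, hb⟩ := (hS.inter_right isClosed_Ici).exists_isLeast h2
      have hz : z ∈ segment ℝ a b := by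
        rw [segment_eq_Icc (le_trans haz hbz)]
        exact ⟨haz, hbz⟩
      obtain ⟨θ, η, hθ, hη, hs, hzz⟩ := hz
      simp only [smul_eq_mul] at hzz
      have haz' : a ≤ z := haz
      have hbz' : z ≤ b := hbz
      refine ⟨a, haS, b, hbS, θ, hθ, by linarith, fun x hx => ?_⟩
      have hη' : η = 1 - θ := by linarith
      subst hη'
      rcases le_total x z with h | h
      · have : x ≤ a := ha ⟨hx, h⟩
        rw [abs_of_nonpos (by linarith), abs_of_nonpos (by linarith), abs_of_nonpos (by linarith)]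
        nlinarith
      · have : b ≤ x := hb ⟨hx, h⟩
        rw [abs_of_nonneg (by linarith), abs_of_nonneg (by linarith), abs_of_nonneg (by linarith)]
        nlinarith
    · refine ⟨a, haS, a, haS, 1, zero_le_one, le_rfl, fun x hx => ?_⟩
      have hxz : x ≤ z := by
        by_contra h
        exact h2 ⟨x, hx, (not_le.1 h).le⟩
      have : x ≤ a := ha ⟨hx, hxz⟩
      have haz' : a ≤ z := haz
      rw [abs_of_nonpos (by linarith), abs_of_nonpos (by linarith)]
      linarith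
  · obtain ⟨b, hbS, hb⟩ := hS.exists_isLeast hne
    refine ⟨b, hbS, b, hbS, 1, zero_le_one, le_rfl, fun x hx => ?_⟩
    have hbz : z ≤ b := by
      by_contra h
      exact h1 ⟨b, hbS, (not_le.1 h).le⟩
    have : b ≤ x := hb hx
    rw [abs_of_nonneg (by linarith), abs_of_nonneg (by linarith)]
    linarith

theorem frostman {K : Set ℝ} (hKc : IsCompact K) {D : ℝ} (hD : Metric.diam K < D)
    {μ : Measure ℝ} [IsProbabilityMeasure μ] (hK : μ Kᶜ = 0)
    (hE : ∫⁻ x, U D μ x ∂μ < ⊤)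
    (hmin : ∀ ν : Measure ℝ, IsProbabilityMeasure ν → ν Kᶜ = 0 →
      ∫⁻ x, U D μ x ∂μ ≤ ∫⁻ x, U D ν x ∂ν) (w : ℂ) :
    (∀ᵐ x : ℝ ∂μ, (x : ℂ) - w ≠ 0) ∧ Integrable (fun x : ℝ => Real.log ‖(x : ℂ) - w‖) μ ∧
      Real.log D - (∫⁻ x, U D μ x ∂μ).toReal ≤ ∫ x : ℝ, Real.log ‖(x : ℂ) - w‖ ∂μ := by
  have hD0 : 0 < D := Metric.diam_nonneg.trans_lt hD
  have hz := no_atom hE
  set E := ∫⁻ x, U D μ x ∂μ with hEdef
  have hKae : ∀ᵐ x ∂μ, x ∈ K := hK
  have hS : IsCompact (K ∩ {z | U D μ z ≤ E}) := hKc.inter_right (closed_U hD0 hz E)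
  have hSae : ∀ᵐ x ∂μ, x ∈ K ∩ {z | U D μ z ≤ E} := by
    filter_upwards [hKae, U_le_ae hK hE hmin] with x h1 h2 using ⟨h1, h2⟩
  obtain ⟨a, ha, b, hb, θ, hθ0, hθ1, h⟩ := gap hS hSae.exists w.re
  obtain ⟨ia, la⟩ := log_on_S hKc hD hK hz hE.ne ha.1 ha.2
  obtain ⟨ib, lb⟩ := log_on_S hKc hD hK hz hE.ne hb.1 hb.2
  have hne : ∀ᵐ x : ℝ ∂μ, (x : ℂ) - w ≠ 0 := by
    filter_upwards [ae_ne (hz w.re)] with x hx h0
    exact hx (by rw [← sub_eq_zero.1 h0]; simp)
  have hlow : ∀ᵐ x : ℝ ∂μ, θ * Real.log |x - a| + (1 - θ) * Real.log |x - b|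
      ≤ Real.log ‖(x : ℂ) - w‖ := by
    filter_upwards [hSae, ae_ne (hz a), ae_ne (hz b)] with x hx hxa hxb
    have ha' : 0 < |x - a| := abs_pos.2 (sub_ne_zero.2 hxa)
    have hb' : 0 < |x - b| := abs_pos.2 (sub_ne_zero.2 hxb)
    have h1 := strictConcaveOn_log_Ioi.concaveOn.2 (mem_Ioi.2 ha') (mem_Ioi.2 hb') hθ0
      (sub_nonneg.2 hθ1) (by ring)
    simp only [smul_eq_mul] at h1
    refine h1.trans (Real.log_le_log ?_ ((h x hx).trans ?_))
    · rcases hθ0.eq_or_lt with h0 | h0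
      · rw [← h0]; simpa using hb'
      · have := sub_nonneg.2 hθ1
        positivity
    · have := Complex.abs_re_le_norm ((x : ℂ) - w)
      simpa using this
  obtain ⟨R, hR⟩ := hKc.isBounded.exists_norm_le
  have hup : ∀ᵐ x : ℝ ∂μ, Real.log ‖(x : ℂ) - w‖ ≤ Real.log (R + ‖w‖) := by
    filter_upwards [hKae, hne] with x hx hx0
    refine Real.log_le_log (norm_pos_iff.2 hx0) ((norm_sub_le _ _).trans ?_)
    have := hR x hx
    simp only [Complex.norm_real]
    linarith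
  have hi0 := (ia.const_mul θ).add (ib.const_mul (1 - θ))
  have hi : Integrable (fun x : ℝ => Real.log ‖(x : ℂ) - w‖) μ :=
    integrable_of_le_of_le (Measurable.aestronglyMeasurable (by fun_prop)) hlow hup hi0
      (integrable_const _)
  refine ⟨hne, hi, le_trans ?_ (integral_mono_ae hi0 hi hlow)⟩
  have := integral_add (ia.const_mul θ) (ib.const_mul (1 - θ))
  simp only [Pi.add_apply]
  rw [this, integral_const_mul, integral_const_mul]
  nlinarith [mul_le_mul_of_nonneg_left la hθ0, mul_le_mul_of_nonneg_left lb (sub_nonneg.2 hθ1)]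

end Pool.Agent.H.MP_7f7d18_an
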