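import Pool.Agent.H.MP_7f7d18_an.A

open MeasureTheory Set Filter Topology Polynomial
open scoped ENNReal

namespace Pool.Agent.H.MP_7f7d18_an

/-- every linear factor has logarithmic mean at least `L` -/
def Good (μ : Measure ℝ) (L : ℝ) : Prop :=
  ∀ w : ℂ, (∀ᵐ x : ℝ ∂μ, (x : ℂ) - w ≠ 0) ∧ Integrable (fun x : ℝ => Real.log ‖(x : ℂ) - w‖) μ ∧
      L ≤ ∫ x : ℝ, Real.log ‖(x : ℂ) - w‖ ∂μ

theorem good_prod {μ : Measure ℝ} [IsProbabilityMeasure μ] {L : ℝ} (h : Good μ L) {c : ℂ}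
    (hc : c ≠ 0) (s : Multiset ℂ) :
    (∀ᵐ x : ℝ ∂μ, c * (s.map ((x : ℂ) - ·)).prod ≠ 0) ∧
      Integrable (fun x : ℝ => Real.log ‖c * (s.map ((x : ℂ) - ·)).prod‖) μ ∧
      Real.log ‖c‖ + s.card * L ≤ ∫ x : ℝ, Real.log ‖c * (s.map ((x : ℂ) - ·)).prod‖ ∂μ := by
  induction s using Multiset.induction_on with
  | empty => simp [hc]
  | cons a s ih =>
    obtain ⟨h1, h2, h3⟩ := ih
    obtain ⟨g1, g2, g3⟩ := h a
    have e : ∀ x : ℝ, c * ((a ::ₘ s).map ((x : ℂ) - ·)).prod
        = ((x : ℂ) - a) * (c * (s.map ((x : ℂ) - ·)).prod) := fun x => by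
      rw [Multiset.map_cons, Multiset.prod_cons]
      ring
    simp only [e]
    have e2 : (fun x : ℝ => Real.log ‖(x : ℂ) - a‖ + Real.log ‖c * (s.map ((x : ℂ) - ·)).prod‖)
        =ᵐ[μ] fun x : ℝ => Real.log ‖((x : ℂ) - a) * (c * (s.map ((x : ℂ) - ·)).prod)‖ := by
      filter_upwards [h1, g1] with x hx1 hx2
      rw [norm_mul ((x : ℂ) - a), Real.log_mul (norm_ne_zero_iff.2 hx2) (norm_ne_zero_iff.2 hx1)]
    refine ⟨?_, (g2.add h2).congr e2, ?_⟩
    · filter_upwards [h1, g1] with x hx1 hx2 using mul_ne_zero hx2 hx1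
    · rw [← integral_congr_ae e2, integral_add g2 h2, Multiset.card_cons]
      push_cast
      linarith

theorem good_poly {μ : Measure ℝ} [IsProbabilityMeasure μ] {L : ℝ} (h : Good μ L) {Q : ℝ[X]}
    (hQ : Q ≠ 0) : Integrable (fun x : ℝ => Real.log |Q.eval x|) μ ∧
      Real.log |Q.leadingCoeff| + Q.natDegree * L ≤ ∫ x : ℝ, Real.log |Q.eval x| ∂μ := by
  have hs := IsAlgClosed.splits (Q.map (algebraMap ℝ ℂ))
  have hlc : (Q.map (algebraMap ℝ ℂ)).leadingCoeff = (Q.leadingCoeff : ℂ) := by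
    rw [leadingCoeff_map]
    rfl
  have hc : (Q.leadingCoeff : ℂ) ≠ 0 := by
    exact_mod_cast leadingCoeff_ne_zero.2 hQ
  obtain ⟨-, h2, h3⟩ := good_prod h hc (Q.map (algebraMap ℝ ℂ)).roots
  have e : ∀ x : ℝ, ‖(Q.leadingCoeff : ℂ) *
      ((Q.map (algebraMap ℝ ℂ)).roots.map ((x : ℂ) - ·)).prod‖ = |Q.eval x| := fun x => by
    rw [← hlc, ← hs.eval_eq_prod_roots, eval_map_algebraMap,
      show (x : ℂ) = algebraMap ℝ ℂ x from rfl, aeval_algebraMap_apply_eq_algebraMap_eval]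
    simp
  simp only [e] at h2 h3
  rw [← hs.natDegree_eq_card_roots, natDegree_map] at h3
  exact ⟨h2, by simpa using h3⟩

noncomputable def G (Q : ℝ[X]) : ℕ → ℝ[X]
  | 0 => Q
  | j + 1 => G Q j ^ 2 - C 2

theorem G_deg {Q : ℝ[X]} (hQ : 1 ≤ Q.natDegree) (j : ℕ) :
    (G Q j).natDegree = 2 ^ j * Q.natDegree ∧ (G Q j).leadingCoeff = Q.leadingCoeff ^ 2 ^ j := by
  induction j with
  | zero => simp [G]
  | succ j ih =>
    have h0 : 0 < (G Q j ^ 2).natDegree := by
      rw [natDegree_pow, ih.1]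
      positivity
    have h1 : (C (2 : ℝ)).degree < (G Q j ^ 2).degree :=
      degree_lt_degree (by rwa [natDegree_C])
    refine ⟨?_, ?_⟩
    · rw [G, natDegree_sub_C, natDegree_pow, ih.1]
      ring
    · rw [G, leadingCoeff_sub_of_degree_lt h1, leadingCoeff_pow, ih.2, ← pow_mul, pow_succ]

theorem G_bound {Q : ℝ[X]} {x s : ℝ} (h : |Q.eval x| ≤ 2 * Real.cosh s) (j : ℕ) :
    |(G Q j).eval x| ≤ 2 * Real.cosh (2 ^ j * s) := by
  induction j with
  | zero => simpa [G] using h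
  | succ j ih =>
    have e : (2 : ℝ) ^ (j + 1) * s = 2 * (2 ^ j * s) := by ring
    rw [e, Real.cosh_two_mul]
    have h1 := Real.cosh_sq (2 ^ j * s)
    have h2 := Real.one_le_cosh (2 ^ j * s)
    have h3 : ((G Q j).eval x) ^ 2 ≤ (2 * Real.cosh (2 ^ j * s)) ^ 2 := by
      rw [← sq_abs]
      exact pow_le_pow_left₀ (abs_nonneg _) ih 2
    simp only [G, eval_sub, eval_pow, eval_C]
    rw [abs_le]
    constructor <;> nlinarith [sq_nonneg ((G Q j).eval x), sq_nonneg (Real.sinh (2 ^ j * s))]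

noncomputable def ac (u : ℝ) : ℝ := Real.arcosh (max 1 u)

theorem ac_nonneg (u : ℝ) : 0 ≤ ac u := Real.arcosh_nonneg (le_max_left _ _)

theorem cosh_ac (u : ℝ) : Real.cosh (ac u) = max 1 u := Real.cosh_arcosh (le_max_left _ _)

theorem ac_cont : Continuous ac :=
  Real.continuousOn_arcosh.comp_continuous (by fun_prop) fun _ => mem_Ici.2 (le_max_left _ _)

theorem int_cont {K : Set ℝ} (hKc : IsCompact K) {μ : Measure ℝ} [IsProbabilityMeasure μ]
    (hK : μ Kᶜ = 0) {f : ℝ → ℝ} (hf : Continuous f) : Integrable f μ := by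
  have hKae : ∀ᵐ x ∂μ, x ∈ K := hK
  have := hf.continuousOn.integrableOn_compact (μ := μ) hKc
  rwa [IntegrableOn, Measure.restrict_eq_self_of_ae_mem hKae] at this

theorem star {K : Set ℝ} (hKc : IsCompact K) {μ : Measure ℝ} [IsProbabilityMeasure μ]
    (hK : μ Kᶜ = 0) {L : ℝ} (h : Good μ L) {P : ℝ[X]} (hP : P.Monic) (hn : 1 ≤ P.natDegree)
    {y : ℝ} (hy : 0 < y) :
    Real.log (2 / y) + P.natDegree * L ≤ ∫ x, ac (|P.eval x| / y) ∂μ := by
  have hy2 : (0 : ℝ) < 2 / y := by positivity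
  set Q : ℝ[X] := C (2 / y) * P with hQ
  have hQd : Q.natDegree = P.natDegree := natDegree_C_mul hy2.ne'
  have hQl : Q.leadingCoeff = 2 / y := by
    rw [hQ, leadingCoeff_mul, leadingCoeff_C, hP.leadingCoeff, mul_one]
  have hi : Integrable (fun x => ac (|P.eval x| / y)) μ :=
    int_cont hKc hK (ac_cont.comp (P.continuous.abs.div_const y))
  have key : ∀ j : ℕ, (2 : ℝ) ^ j * (Real.log (2 / y) + P.natDegree * L)
      ≤ Real.log 2 + 2 ^ j * ∫ x, ac (|P.eval x| / y) ∂μ := fun j => by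
    obtain ⟨d1, d2⟩ := G_deg (hQd ▸ hn : 1 ≤ Q.natDegree) j
    have hne : G Q j ≠ 0 := by
      rw [← leadingCoeff_ne_zero, d2, hQl]
      positivity
    obtain ⟨g1, g2⟩ := good_poly h hne
    rw [d1, d2, hQl, hQd, abs_of_pos (by positivity), Real.log_pow] at g2
    have g3 : ∫ x, Real.log |(G Q j).eval x| ∂μ
        ≤ ∫ x, (Real.log 2 + 2 ^ j * ac (|P.eval x| / y)) ∂μ := by
      refine integral_mono g1 ((integrable_const _).add (hi.const_mul _)) fun x => ?_
      have b1 : |Q.eval x| ≤ 2 * Real.cosh (ac (|P.eval x| / y)) := by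
        rw [cosh_ac, hQ, eval_mul, eval_C, abs_mul, abs_of_pos hy2]
        have := le_max_right 1 (|P.eval x| / y)
        calc 2 / y * |P.eval x| = 2 * (|P.eval x| / y) := by ring
          _ ≤ _ := by linarith
      have b2 := G_bound b1 j
      have b3 : 0 ≤ (2 : ℝ) ^ j * ac (|P.eval x| / y) := mul_nonneg (by positivity) (ac_nonneg _)
      have b4 : Real.cosh (2 ^ j * ac (|P.eval x| / y)) ≤ Real.exp (2 ^ j * ac (|P.eval x| / y)) := by
        rw [Real.cosh_eq]
        have := Real.exp_le_exp.2 (show -(2 ^ j * ac (|P.eval x| / y)) ≤ 2 ^ j * ac (|P.eval x| / y)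
          by linarith)
        linarith
      have l2 : 0 ≤ Real.log 2 := Real.log_nonneg (by norm_num)
      show Real.log |(G Q j).eval x| ≤ Real.log 2 + 2 ^ j * ac (|P.eval x| / y)
      rcases (abs_nonneg ((G Q j).eval x)).eq_or_lt with h0 | h0
      · rw [← h0, Real.log_zero]
        linarith
      · calc Real.log |(G Q j).eval x| ≤ Real.log (2 * Real.exp (2 ^ j * ac (|P.eval x| / y))) :=
              Real.log_le_log h0 (by linarith)
          _ = _ := by rw [Real.log_mul two_ne_zero (Real.exp_pos _).ne', Real.log_exp]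
    rw [integral_add (integrable_const _) (hi.const_mul _), integral_const_mul] at g3
    simp only [integral_const, probReal_univ, smul_eq_mul, one_mul] at g3
    push_cast at g2
    nlinarith
  by_contra hc
  push Not at hc
  obtain ⟨j, hj⟩ := pow_unbounded_of_one_lt (Real.log 2 /
    (Real.log (2 / y) + P.natDegree * L - ∫ x, ac (|P.eval x| / y) ∂μ)) (one_lt_two (α := ℝ))
  rw [div_lt_iff₀ (sub_pos.2 hc)] at hj
  have := key j
  nlinarith

theorem cosh_int {p : ℝ} (hp : 0 < p) :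
    ∫⁻ s in Ioi (0 : ℝ), ENNReal.ofReal ((Real.cosh s)⁻¹ ^ p)
      ≤ ENNReal.ofReal (ProbabilityTheory.beta (p / 2) (1 / 2) / 2) := by
  have hq : 0 < p / 2 := by positivity
  have hh : (0 : ℝ) < 1 / 2 := by norm_num
  have hB := ProbabilityTheory.beta_pos hq hh
  have h1 := ProbabilityTheory.lintegral_betaPDF_eq_one hq hh
  set B := ProbabilityTheory.beta (p / 2) (1 / 2) with hBdef
  have hd : ∀ s ∈ Ioi (0 : ℝ), HasDerivWithinAt (fun s => ((Real.cosh s) ^ 2)⁻¹)
      (-(2 * Real.sinh s / Real.cosh s ^ 3)) (Ioi 0) s := fun s _ => by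
    have hc := Real.cosh_pos s
    have := ((Real.hasDerivAt_cosh s).pow 2).inv (by simpa using hc.ne')
    refine HasDerivAt.hasDerivWithinAt (this.congr_deriv ?_)
    simp only [Pi.pow_apply]
    field_simp
    simp
    ring
  have hinj : InjOn (fun s => ((Real.cosh s) ^ 2)⁻¹) (Ioi 0) := fun s hs t ht e => by
    have e1 : Real.cosh s = Real.cosh t :=
      (pow_left_inj₀ (Real.cosh_pos s).le (Real.cosh_pos t).le two_ne_zero).1 (inv_injective e)
    exact Real.cosh_strictMonoOn.injOn (Ioi_subset_Ici_self hs) (Ioi_subset_Ici_self ht) e1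
  have h2 := lintegral_image_eq_lintegral_abs_deriv_mul measurableSet_Ioi hd hinj
    (ProbabilityTheory.betaPDF (p / 2) (1 / 2))
  have h3 := (h2.ge.trans (setLIntegral_le_lintegral _ _)).trans h1.le
  have h4 : ∀ s ∈ Ioi (0 : ℝ), ENNReal.ofReal ((Real.cosh s)⁻¹ ^ p) = ENNReal.ofReal (B / 2) *
      (ENNReal.ofReal |-(2 * Real.sinh s / Real.cosh s ^ 3)| *
        ProbabilityTheory.betaPDF (p / 2) (1 / 2) ((Real.cosh s) ^ 2)⁻¹) := fun s hs => by
    have hc := Real.cosh_pos s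
    have hc1 : 1 < Real.cosh s := Real.one_lt_cosh.2 (ne_of_gt hs)
    have hsh : 0 < Real.sinh s := Real.sinh_pos_iff.2 hs
    rw [ProbabilityTheory.betaPDF_of_pos_lt_one (by positivity)
      (inv_lt_one_of_one_lt₀ (by nlinarith)), ← ENNReal.ofReal_mul (abs_nonneg _),
      ← ENNReal.ofReal_mul (by positivity), abs_neg, abs_of_pos (by positivity), ← hBdef]
    congr 1
    have e1 : 1 - (Real.cosh s ^ 2)⁻¹ = (Real.sinh s / Real.cosh s) ^ 2 := by
      field_simp
      rw [Real.cosh_sq]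
      ring
    have e2 : ((Real.sinh s / Real.cosh s) ^ 2) ^ ((1 : ℝ) / 2 - 1) = Real.cosh s / Real.sinh s := by
      rw [← Real.rpow_two, ← Real.rpow_mul (by positivity)]
      norm_num
      rw [Real.rpow_neg_one, inv_div]
    have e3 : ((Real.cosh s ^ 2)⁻¹) ^ (p / 2 - 1) = (Real.cosh s)⁻¹ ^ p * Real.cosh s ^ 2 := by
      rw [← inv_pow, ← Real.rpow_two, ← Real.rpow_mul (by positivity),
        show 2 * (p / 2 - 1) = p - 2 by ring, Real.rpow_sub (by positivity), Real.rpow_two]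
      field_simp
    rw [e1, e2, e3]
    field_simp
  rw [setLIntegral_congr_fun measurableSet_Ioi h4, lintegral_const_mul' _ _ ENNReal.ofReal_ne_top]
  exact (mul_le_mul_right h3 _).trans (mul_one _).le

theorem main {K : Set ℝ} (hKc : IsCompact K) {μ : Measure ℝ} [IsProbabilityMeasure μ]
    (hK : μ Kᶜ = 0) {f : ℝ → ℝ} (hf : Continuous f) (hf0 : ∀ x, 0 ≤ f x) {c p : ℝ} (hc : 0 < c)
    (hp : 0 < p) (h : ∀ y : ℝ, 0 < y → Real.log (c / y) ≤ ∫ x, ac (f x / y) ∂μ) :
    c ^ p / p ≤ (∫ x, f x ^ p ∂μ) * (ProbabilityTheory.beta (p / 2) (1 / 2) / 2) := by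
  set m : Measure ℝ := volume.restrict (Ioi 0) with hm
  have hF : Measurable fun z : ℝ × ℝ => f z.1 * (Real.cosh z.2)⁻¹ :=
    (hf.measurable.comp measurable_fst).mul (by fun_prop)
  have l1 := lintegral_rpow_eq_lintegral_meas_lt_mul (μ.prod m)
    (f := fun z : ℝ × ℝ => f z.1 * (Real.cosh z.2)⁻¹)
    (Eventually.of_forall fun z => mul_nonneg (hf0 _) (inv_nonneg.2 (Real.cosh_pos _).le))
    hF.aemeasurable hp
  have l2 := lintegral_rpow_eq_lintegral_meas_lt_mul m (f := fun s : ℝ => c * Real.exp (-s))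
    (Eventually.of_forall fun z => by positivity) (Measurable.aemeasurable (by fun_prop)) hp
  have cmp : ∀ y ∈ Ioi (0 : ℝ), m {s | y < c * Real.exp (-s)}
      ≤ (μ.prod m) {z | y < f z.1 * (Real.cosh z.2)⁻¹} := fun y hy => by
    have hy0 : 0 < y := hy
    have a1 : m {s | y < c * Real.exp (-s)} ≤ ENNReal.ofReal (Real.log (c / y)) := by
      rw [hm, Measure.restrict_apply' measurableSet_Ioi]
      refine (measure_mono (t := Ioo 0 (Real.log (c / y))) fun s hs => ⟨hs.2, ?_⟩).trans (by simp)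
      have h1 : y < c * Real.exp (-s) := hs.1
      rw [Real.lt_log_iff_exp_lt (by positivity), lt_div_iff₀ hy0]
      rw [Real.exp_neg, ← div_eq_mul_inv, lt_div_iff₀ (Real.exp_pos s)] at h1
      linarith
    have hi : Integrable (fun x => ac (f x / y)) μ :=
      int_cont hKc hK (ac_cont.comp (hf.div_const y))
    refine a1.trans ((ENNReal.ofReal_le_ofReal (h y hy)).trans ?_)
    rw [ofReal_integral_eq_lintegral_ofReal hi (Eventually.of_forall fun x => ac_nonneg _),
      Measure.prod_apply (measurableSet_lt measurable_const hF)]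
    refine lintegral_mono fun x => ?_
    rw [hm, Measure.restrict_apply' measurableSet_Ioi]
    refine le_trans (by simp) (measure_mono (s := Ioo 0 (ac (f x / y))) fun s hs => ⟨?_, hs.1⟩)
    show y < f x * (Real.cosh s)⁻¹
    have h1 : Real.cosh s < Real.cosh (ac (f x / y)) :=
      Real.cosh_strictMonoOn hs.1.le (ac_nonneg _) hs.2
    rw [cosh_ac, lt_max_iff] at h1
    rcases h1 with h1 | h1
    · exact absurd (Real.one_le_cosh s) (not_le.2 h1)
    · rw [← div_eq_mul_inv, lt_div_iff₀ (Real.cosh_pos s)]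
      rw [lt_div_iff₀ hy0] at h1
      linarith
  have l3 : ∫⁻ s, ENNReal.ofReal ((c * Real.exp (-s)) ^ p) ∂m
      ≤ ∫⁻ z : ℝ × ℝ, ENNReal.ofReal ((f z.1 * (Real.cosh z.2)⁻¹) ^ p) ∂(μ.prod m) := by
    rw [l1, l2]
    exact mul_le_mul_right (setLIntegral_mono' measurableSet_Ioi fun y hy =>
      mul_le_mul_left (cmp y hy) _) _
  have hfp : Continuous fun x => f x ^ p := hf.rpow_const fun _ => Or.inr hp.le
  have hfi := int_cont hKc hK hfp
  have hfp0 : ∀ x, 0 ≤ f x ^ p := fun x => Real.rpow_nonneg (hf0 x) p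
  have l4 : ∫⁻ z : ℝ × ℝ, ENNReal.ofReal ((f z.1 * (Real.cosh z.2)⁻¹) ^ p) ∂(μ.prod m)
      = ENNReal.ofReal (∫ x, f x ^ p ∂μ) * ∫⁻ s, ENNReal.ofReal ((Real.cosh s)⁻¹ ^ p) ∂m := by
    rw [ofReal_integral_eq_lintegral_ofReal hfi (Eventually.of_forall hfp0),
      ← lintegral_prod_mul hfp.measurable.ennreal_ofReal.aemeasurable
        (Measurable.aemeasurable (by fun_prop))]
    refine lintegral_congr fun z => ?_
    rw [Real.mul_rpow (hf0 _) (inv_nonneg.2 (Real.cosh_pos _).le), ENNReal.ofReal_mul (hfp0 _)]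
  have l5 : ∫⁻ s, ENNReal.ofReal ((c * Real.exp (-s)) ^ p) ∂m = ENNReal.ofReal (c ^ p / p) := by
    have e : ∀ s : ℝ, (c * Real.exp (-s)) ^ p = c ^ p * Real.exp (-p * s) := fun s => by
      rw [Real.mul_rpow hc.le (Real.exp_pos _).le, ← Real.exp_mul]
      congr 2
      ring
    simp only [e]
    have hi := (integrableOn_exp_mul_Ioi (neg_lt_zero.2 hp) 0).const_mul (c ^ p)
    rw [hm, ← ofReal_integral_eq_lintegral_ofReal hi (Eventually.of_forall fun s => by positivity),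
      integral_const_mul, integral_exp_mul_Ioi (neg_lt_zero.2 hp)]
    congr 1
    simp [div_eq_mul_inv]
  have hI : 0 ≤ ∫ x, f x ^ p ∂μ := integral_nonneg hfp0
  have hB := ProbabilityTheory.beta_pos (show 0 < p / 2 by positivity) (show (0 : ℝ) < 1 / 2 by norm_num)
  rw [l5, l4] at l3
  have l6 := l3.trans (mul_le_mul_right (cosh_int hp) _)
  rw [← ENNReal.ofReal_mul hI] at l6
  exact (ENNReal.ofReal_le_ofReal_iff (by positivity)).1 l6

theorem final {K : Set ℝ} (hKc : IsCompact K) {μ : Measure ℝ} [IsProbabilityMeasure μ]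
    (hK : μ Kᶜ = 0) {D E : ℝ} (hD : 0 < D) (h : Good μ (Real.log D - E)) {p : ℝ} (hp : 0 < p)
    {P : ℝ[X]} (hP : P.Monic) (hn : 1 ≤ P.natDegree) :
    (2 : ℝ) ^ p / Real.sqrt Real.pi * Real.Gamma ((p + 1) / 2) / Real.Gamma (p / 2 + 1)
        * (D * Real.exp (-E)) ^ ((P.natDegree : ℝ) * p) ≤ ∫ x, |P.eval x| ^ p ∂μ := by
  have hc : 0 < D * Real.exp (-E) := by positivity
  have h1 := main hKc hK (f := fun x => |P.eval x|) P.continuous.abs (fun _ => abs_nonneg _)
    (c := 2 * (D * Real.exp (-E)) ^ P.natDegree) (by positivity) hp fun y hy => by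
      refine le_trans (le_of_eq ?_) (star hKc hK h hP hn hy)
      rw [mul_div_right_comm, Real.log_mul (by positivity) (by positivity), Real.log_pow,
        Real.log_mul hD.ne' (Real.exp_pos _).ne', Real.log_exp]
      ring
  have g1 := Real.Gamma_pos_of_pos (show 0 < p / 2 by positivity)
  have g2 := Real.Gamma_pos_of_pos (show 0 < (p + 1) / 2 by positivity)
  have g3 : 0 < Real.sqrt Real.pi := Real.sqrt_pos.2 Real.pi_pos
  rw [ProbabilityTheory.beta, Real.Gamma_one_half_eq, show p / 2 + 1 / 2 = (p + 1) / 2 by ring,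
    Real.mul_rpow (by norm_num) (by positivity), ← Real.rpow_natCast,
    ← Real.rpow_mul hc.le, ← div_le_iff₀ (by positivity)] at h1
  refine le_trans (le_of_eq ?_) h1
  rw [Real.Gamma_add_one (by positivity)]
  field_simp

end Pool.Agent.H.MP_7f7d18_an
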